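import Pool.Agent.MWLE.StmtsA

/-!
# Row RGZ of block MWLE (MP_23468a_al): rigidity of y, second part
-/

set_option autoImplicit false

namespace Pool.Agent.MWLE.H41

open Pool.Agent.Helper14_MV Pool.Agent.Helper2_MV
open Pool.Agent.MWK (pre Gw)
open Pool.Agent.MWF (Ap gaml dbl)
open Pool.Agent.MWGN (nn Gz E0 P0 A0 Tau gh)
open Pool.Agent.MWLE

theorem psi_con (k : ℕ) : psi 0 (con k) = [con k, con k] := by
  have h1 : ¬ 5 * k + 4 = 0 := by omega
  have h2 : (5 * k + 4) % 5 = 4 := by omega
  unfold psi con
  rw [if_neg h1, if_pos h2]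

theorem psi_pin (k : ℕ) : psi 0 (pin k) = [pin k] := by
  have h1 : ¬ 5 * k + 2 = 0 := by omega
  have h2 : ¬ (5 * k + 2) % 5 = 4 := by omega
  unfold psi pin
  rw [if_neg h1, if_neg h2]

theorem psi_sep (k : ℕ) : psi 0 (sep k) = [sep k] := by
  have h1 : ¬ 5 * k + 3 = 0 := by omega
  have h2 : ¬ (5 * k + 3) % 5 = 4 := by omega
  unfold psi sep
  rw [if_neg h1, if_neg h2]

theorem psi_one : psi 0 1 = [1] := by decide

theorem psi_tail (l : List ℕ) (h : ∀ c ∈ l, ∃ k, c = sep k ∨ c = pin k) :
    l.flatMap (psi 0) = l := by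
  induction l with
  | nil => rfl
  | cons a l ih =>
    rw [List.flatMap_cons, ih (fun c hc => h c (List.mem_cons_of_mem _ hc))]
    obtain ⟨k, rfl | rfl⟩ := h a List.mem_cons_self
    · rw [psi_sep]; rfl
    · rw [psi_pin]; rfl

theorem psi_G (l : List ℕ) (h : ∀ c ∈ l, ∃ k, c = con k) : l.flatMap (psi 0) = dbl l := by
  unfold dbl
  apply List.flatMap_congr
  intro c hc
  obtain ⟨k, rfl⟩ := h c hc
  exact psi_con k

theorem rz_fix (m : ℕ) (l : List ℕ) (h : ∀ c ∈ l, c ≠ pin (m + 2) ∧ c ≠ sep (m + 2)) :
    l.map (rz m) = l := by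
  have h1 : l.map (rz m) = l.map id := by
    apply List.map_congr_left
    intro c hc
    unfold rz
    rw [if_neg (h c hc).1, if_neg (h c hc).2]
    rfl
  rw [h1, List.map_id]

theorem sub_map (g : ℕ → ℕ) (l : List ℕ) : l.flatMap (fun c => [g c]) = l.map g := by
  induction l with
  | nil => rfl
  | cons a l ih => rw [List.flatMap_cons, ih]; rfl

theorem tl_map (τ : List ℕ) : tl (τ.map (fun i => i + 1)) =
    tll (fun i => sep (i + 1)) (fun i => pin (i + 1)) τ := by
  unfold tl tll
  rw [List.flatMap_map]

theorem tl_map2 (m : ℕ) (τ : List ℕ) (h : ∀ i ∈ τ, i ≤ m) :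
    (tl (τ.map (fun i => if i = m then m + 2 else i + 1))).map (rz m) =
      tll (fun i => sep (i + 1)) (fun i => pin (i + 1)) τ := by
  induction τ with
  | nil => rfl
  | cons i τ ih =>
    have e1 : tl ((i :: τ).map (fun i => if i = m then m + 2 else i + 1)) =
        sep (if i = m then m + 2 else i + 1) :: pin (if i = m then m + 2 else i + 1) ::
          tl (τ.map (fun i => if i = m then m + 2 else i + 1)) := rfl
    have e2 : tll (fun i => sep (i + 1)) (fun i => pin (i + 1)) (i :: τ) =
        sep (i + 1) :: pin (i + 1) ::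
          tll (fun i => sep (i + 1)) (fun i => pin (i + 1)) τ := rfl
    rw [e1, e2, List.map_cons, List.map_cons, ih (fun j hj => h j (List.mem_cons_of_mem _ hj))]
    have hi := h i List.mem_cons_self
    by_cases him : i = m
    · rw [if_pos him, him]
      have h1 : rz m (sep (m + 2)) = sep (m + 1) := by
        unfold rz
        rw [if_neg (by unfold sep pin; omega), if_pos rfl]
      have h2 : rz m (pin (m + 2)) = pin (m + 1) := by
        unfold rz
        rw [if_pos rfl]
      rw [h1, h2]
    · rw [if_neg him]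
      have h1 : rz m (sep (i + 1)) = sep (i + 1) := by
        unfold rz
        rw [if_neg (by unfold sep pin; omega), if_neg (by unfold sep; omega)]
      have h2 : rz m (pin (i + 1)) = pin (i + 1) := by
        unfold rz
        rw [if_neg (by unfold pin; omega), if_neg (by unfold sep pin; omega)]
      rw [h1, h2]

theorem mem_tll (τ : List ℕ) {i : ℕ} (h : i ∈ τ) :
    pin (i + 1) ∈ tll (fun i => sep (i + 1)) (fun i => pin (i + 1)) τ := by
  unfold tll
  rw [List.mem_flatMap]
  exact ⟨i, h, by simp⟩

/-- `c c` in a doubled word -/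
theorem dbl_split {P : List ℕ} {k : ℕ} (h : con k ∈ P) :
    ∃ P1 P2, P.flatMap (psi 0) = P1 ++ con k :: con k :: P2 := by
  obtain ⟨a, b, rfl⟩ := List.append_of_mem h
  refine ⟨a.flatMap (psi 0), b.flatMap (psi 0), ?_⟩
  rw [List.flatMap_append, List.flatMap_cons, psi_con]
  rfl

theorem ctx (β : FIC) (p q : List ℕ) {l l' : List ℕ} (h : RR β l l') :
    RR β (p ++ (l ++ q)) (p ++ (l' ++ q)) := (RR.refl p).append (h.append (RR.refl q))

/-- the word of `BtS` -/
theorem dq_v (m : ℕ) : ∀ k, dq (fun c => decide (c % 5 = 2))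
    ((List.range k).flatMap (fun i => [con i, con i, pin (i + 1)]) ++ [con m, con m]) =
      lw4 (fun i => pin (i + 1)) con k ++ [con m, con m, con m, con m] := by
  intro k
  unfold dq lw4
  rw [List.flatMap_append]
  have hc : ∀ i : ℕ, (if (decide (con i % 5 = 2)) = true then [con i] else [con i, con i]) =
      [con i, con i] := by
    intro i
    have : ¬ (5 * i + 4) % 5 = 2 := by omega
    unfold con
    simp [this]
  have hp : ∀ i : ℕ, (if (decide (pin i % 5 = 2)) = true then [pin i] else [pin i, pin i]) =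
      [pin i] := by
    intro i
    have : (5 * i + 2) % 5 = 2 := by omega
    unfold pin
    simp [this]
  congr 1
  · rw [List.flatMap_assoc]
    apply List.flatMap_congr
    intro i _
    rw [List.flatMap_cons, List.flatMap_cons, List.flatMap_cons, List.flatMap_nil]
    simp only [hc, hp]
    rfl
  · rw [List.flatMap_cons, List.flatMap_cons, List.flatMap_nil]
    simp only [hc]
    rfl

theorem v_filter (m : ℕ) : ∀ k,
    ((List.range k).flatMap (fun i => [con i, con i, pin (i + 1)]) ++ [con m, con m]).filter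
      (fun c => decide (c % 5 = 2)) = (List.range k).map (fun i => pin (i + 1)) := by
  intro k
  have hc : ∀ i : ℕ, (decide (con i % 5 = 2)) = false := by
    intro i
    have : ¬ (5 * i + 4) % 5 = 2 := by omega
    unfold con
    simp [this]
  have hp : ∀ i : ℕ, (decide (pin i % 5 = 2)) = true := by
    intro i
    have : (5 * i + 2) % 5 = 2 := by omega
    unfold pin
    simp [this]
  rw [List.filter_append]
  have e : ([con m, con m] : List ℕ).filter (fun c => decide (c % 5 = 2)) = [] := by
    rw [List.filter_cons, List.filter_cons]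
    simp only [hc]
    rfl
  rw [e, List.append_nil]
  have h2 : ∀ L : List ℕ, (L.flatMap (fun i => [con i, con i, pin (i + 1)])).filter
      (fun c => decide (c % 5 = 2)) = L.map (fun i => pin (i + 1)) := by
    intro L
    induction L with
    | nil => rfl
    | cons a L ih =>
      rw [List.flatMap_cons, List.filter_append, ih, List.map_cons]
      rw [List.filter_cons, List.filter_cons, List.filter_cons]
      simp only [hc, hp]
      rfl
  exact h2 _

/-- RGZ. -/
theorem rgz (spz : SpzStmt) (tnf : TnfStmt) (rgc : RgcStmt) (cpy : CpyStmt) (pst : PstStmt)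
    (xfs : XfsStmt) (fac : FacStmt) (ler : LerStmt) (_ddc : DdcStmt) : RgzStmt := by
  intro β hG hE hP hk hFF σ τ m hT hS hB W hK hle
  obtain ⟨hF, hcon⟩ := fac β hG hE hk σ τ m 0 (by omega) hS W hK
  obtain ⟨⟨y2, yt, y0⟩, x3⟩ := (xfs β hG hE hP hk σ τ m hS W).2 hK
  obtain ⟨P, G, Q, eU, eZ, hPl, hPp, hP1, hGl, hQl, hQ1, hcP⟩ :=
    spz σ τ m hS W hF (fun c hc h4 => (hcon c hc h4).2) y2 yt y0 hle
  have hτm : ∀ i ∈ τ, i ≤ m := fun i hi => (hT.2 i).1 hi
  obtain ⟨cU, cZ⟩ := cpy σ τ m hS hτm
  obtain ⟨-, -, -, -, -, pF⟩ := pst 0 W (by omega)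
  set T := tll (fun i => sep (i + 1)) (fun i => pin (i + 1)) τ with hTdef
  -- the letters of the images
  have hψP : ∀ c ∈ P.flatMap (psi 0), c = 1 ∨ (∃ k ≤ m, c = con k) ∨ ∃ i < m, c = pin (i + 1) := by
    intro c hc
    rw [List.mem_flatMap] at hc
    obtain ⟨d, hd, hc⟩ := hc
    rcases hPl d hd with rfl | ⟨k, hk, rfl⟩ | ⟨i, hi, rfl⟩
    · rw [psi_one] at hc
      exact Or.inl (by simpa using hc)
    · rw [psi_con] at hc
      exact Or.inr (Or.inl ⟨k, hk, by simpa using hc⟩)
    · rw [psi_pin] at hc
      exact Or.inr (Or.inr ⟨i, hi, by simpa using hc⟩)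
  have hψQ : ∀ c ∈ Q.flatMap (psi 0), c = 1 ∨ ∃ k ≤ m, c = con k := by
    intro c hc
    rw [List.mem_flatMap] at hc
    obtain ⟨d, hd, hc⟩ := hc
    rcases hQl d hd with rfl | ⟨k, hk, rfl⟩
    · rw [psi_one] at hc
      exact Or.inl (by simpa using hc)
    · rw [psi_con] at hc
      exact Or.inr ⟨k, hk, by simpa using hc⟩
  have hG' : ∀ c ∈ G, ∃ k, c = con k := fun c hc => by
    obtain ⟨k, -, e, -⟩ := hGl c hc
    exact ⟨k, e⟩
  have pinP : ∀ i < m, pin (i + 1) ∈ P.flatMap (psi 0) := by
    intro i hi
    rw [List.mem_flatMap]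
    refine ⟨pin (i + 1), ?_, by rw [psi_pin]; simp⟩
    rw [← List.count_pos_iff, hPp i hi]
    omega
  -- U1
  have t1' : ∀ (F : ℕ → Bool), ((sf W (t1 σ)).filter (fun c =>
      decide (∃ k, k ≤ 2 * m + 2 ∧ F k = true ∧ (c = sep k ∨ c = pin k)))).flatMap (psi 0) =
      (sf W (t1 σ)).filter (fun c =>
        decide (∃ k, k ≤ 2 * m + 2 ∧ F k = true ∧ (c = sep k ∨ c = pin k))) := by
    intro F
    apply psi_tail
    intro c hc
    have h1 := (List.mem_filter.1 hc).2
    simp only [decide_eq_true_eq] at h1
    obtain ⟨k, -, -, h2⟩ := h1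
    exact ⟨k, h2⟩
  have hU : RR β ((W.flatMap (psi 0)).filter (Fu m))
      (P.flatMap (psi 0) ++ pin (m + 1) :: (dbl G ++ (Q.flatMap (psi 0) ++ T))) := by
    rw [pF (Fu m), eU]
    rw [List.flatMap_append, List.flatMap_cons, psi_pin, List.flatMap_append, psi_G G hG',
      List.flatMap_append, t1' (fun k => decide (1 ≤ k ∧ k ≤ m + 1))]
    have h1 := tnf β hG σ τ m hS W hF (fun k => decide (1 ≤ k ∧ k ≤ m + 1))
      (P.flatMap (psi 0) ++ (pin (m + 1) :: (dbl G ++ Q.flatMap (psi 0)))) (by
        intro k _ hk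
        simp only [decide_eq_true_eq] at hk
        by_cases hkm : k = m + 1
        · rw [hkm]; simp
        · obtain ⟨i, rfl⟩ : ∃ i, k = i + 1 := ⟨k - 1, by omega⟩
          exact List.mem_append_left _ (pinP i (by omega)))
    rw [hS.f1, tl_map, ← hTdef] at h1
    simpa [List.append_assoc] using h1
  have hZ : RR β (((W.flatMap (psi 0)).filter (Fz m)).map (rz m))
      (P.flatMap (psi 0) ++ (dbl G ++ pin (m + 1) :: (Q.flatMap (psi 0) ++ T))) := by
    rw [pF (Fz m), eZ]
    rw [List.flatMap_append, List.flatMap_append, List.flatMap_cons, psi_pin, psi_G G hG',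
      List.flatMap_append, t1' (fun k => decide ((1 ≤ k ∧ k ≤ m) ∨ k = m + 2))]
    have h1 := tnf β hG σ τ m hS W hF (fun k => decide ((1 ≤ k ∧ k ≤ m) ∨ k = m + 2))
      (P.flatMap (psi 0) ++ (dbl G ++ (pin (m + 2) :: Q.flatMap (psi 0)))) (by
        intro k _ hk
        simp only [decide_eq_true_eq] at hk
        by_cases hkm : k = m + 2
        · rw [hkm]; simp
        · obtain ⟨i, rfl⟩ : ∃ i, k = i + 1 := ⟨k - 1, by omega⟩
          exact List.mem_append_left _ (pinP i (by omega)))
    have h2 := RR.sub (β := β) (fun c => [rz m c]) h1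
    rw [sub_map, sub_map, hS.f2] at h2
    have f1 : (P.flatMap (psi 0)).map (rz m) = P.flatMap (psi 0) := by
      apply rz_fix
      intro c hc
      rcases hψP c hc with rfl | ⟨k, hk, rfl⟩ | ⟨i, hi, rfl⟩
      · exact ⟨by unfold pin; omega, by unfold sep; omega⟩
      · exact ⟨by unfold pin con; omega, by unfold sep con; omega⟩
      · exact ⟨by unfold pin; omega, by unfold sep pin; omega⟩
    have f2 : (Q.flatMap (psi 0)).map (rz m) = Q.flatMap (psi 0) := by
      apply rz_fix
      intro c hc
      rcases hψQ c hc with rfl | ⟨k, hk, rfl⟩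
      · exact ⟨by unfold pin; omega, by unfold sep; omega⟩
      · exact ⟨by unfold pin con; omega, by unfold sep con; omega⟩
    have f3 : (dbl G).map (rz m) = dbl G := by
      apply rz_fix
      intro c hc
      unfold dbl at hc
      rw [List.mem_flatMap] at hc
      obtain ⟨d, hd, hc⟩ := hc
      obtain ⟨k, rfl⟩ := hG' d hd
      have : c = con k := by simpa using hc
      rw [this]
      exact ⟨by unfold pin con; omega, by unfold sep con; omega⟩
    have f4 : rz m (pin (m + 2)) = pin (m + 1) := by
      unfold rz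
      rw [if_pos rfl]
    have g1 : (P.flatMap (psi 0) ++ (dbl G ++ (pin (m + 2) :: Q.flatMap (psi 0))) ++
        tl (τ.map (fun i => if i = m then m + 2 else i + 1))).map (rz m) =
        P.flatMap (psi 0) ++ (dbl G ++ pin (m + 1) :: (Q.flatMap (psi 0) ++ T)) := by
      rw [List.map_append, List.map_append, List.map_append, List.map_cons, f1, f2, f3, f4,
        tl_map2 m τ hτm, ← hTdef]
      simp [List.append_assoc]
    rw [g1] at h2
    rw [show (P.flatMap (psi 0) ++ (dbl G ++ ([pin (m + 2)] ++ (Q.flatMap (psi 0) ++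
      (sf W (t1 σ)).filter (fun c => decide (∃ k, k ≤ 2 * m + 2 ∧
        decide ((1 ≤ k ∧ k ≤ m) ∨ k = m + 2) = true ∧ (c = sep k ∨ c = pin k)))))) : List ℕ) =
      P.flatMap (psi 0) ++ (dbl G ++ (pin (m + 2) :: Q.flatMap (psi 0))) ++
      (sf W (t1 σ)).filter (fun c => decide (∃ k, k ≤ 2 * m + 2 ∧
        decide ((1 ≤ k ∧ k ≤ m) ∨ k = m + 2) = true ∧ (c = sep k ∨ c = pin k))) by
          simp [List.append_assoc]]
    exact h2
  -- RGC
  have hψd : P.flatMap (psi 0) = dq (fun c => decide (c % 5 ≠ 4)) P := by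
    unfold dq
    apply List.flatMap_congr
    intro c hc
    rcases hPl c hc with rfl | ⟨k, hk, rfl⟩ | ⟨i, hi, rfl⟩
    · decide
    · rw [psi_con]
      have h1 : (5 * k + 4) % 5 = 4 := by omega
      unfold con
      simp [h1]
    · rw [psi_pin]
      have h1 : (5 * (i + 1) + 2) % 5 ≠ 4 := by omega
      unfold pin
      simp [h1]
  have hC := rgc β hG hFF (fun c => decide (c % 5 ≠ 4)) P G (Q.flatMap (psi 0) ++ T) (pin (m + 1))
    (by
      intro hne
      obtain ⟨c, hc⟩ := List.exists_mem_of_ne_nil G hne
      obtain ⟨k, hkm, rfl, hlt⟩ := hGl c hc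
      exact (x3 k hkm).2 hlt)
    (by
      intro c hc
      obtain ⟨k, hkm, rfl, -⟩ := hGl c hc
      refine ⟨hcP k hkm (x3 k hkm).1, ?_⟩
      have h1 : (5 * k + 4) % 5 = 4 := by omega
      unfold con
      simp [h1])
    (by
      have h1 : (5 * (m + 1) + 2) % 5 ≠ 4 := by omega
      unfold pin
      simp [h1])
    (by
      rw [List.nodup_iff_count_le_one]
      intro a
      by_cases ha : a ∈ (P ++ [pin (m + 1)]).filter (fun c => decide (c % 5 ≠ 4))
      · rw [List.mem_filter, List.mem_append] at ha
        obtain ⟨ha, hq⟩ := ha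
        rw [List.count_filter (p := fun c => decide (c % 5 ≠ 4)) hq, List.count_append]
        have hz0 : pin (m + 1) ∉ P := by
          intro h
          rcases hPl _ h with h | ⟨k, hk, h⟩ | ⟨i, hi, h⟩
          · unfold pin at h; omega
          · unfold pin con at h; omega
          · unfold pin at h; omega
        rcases ha with ha | ha
        · rcases hPl a ha with rfl | ⟨k, hk, rfl⟩ | ⟨i, hi, rfl⟩
          · have : ([pin (m + 1)] : List ℕ).count 1 = 0 := by
              rw [List.count_eq_zero]
              intro h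
              have : (1 : ℕ) = pin (m + 1) := by simpa using h
              unfold pin at this
              omega
            omega
          · exfalso
            have h1 : (5 * k + 4) % 5 = 4 := by omega
            unfold con at hq
            simp [h1] at hq
          · have : ([pin (m + 1)] : List ℕ).count (pin (i + 1)) = 0 := by
              rw [List.count_eq_zero]
              intro h
              have : pin (i + 1) = pin (m + 1) := by simpa using h
              unfold pin at this
              omega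
            have h3 := hPp i hi
            omega
        · have : a = pin (m + 1) := by simpa using ha
          rw [this, List.count_eq_zero.2 hz0]
          simp
      · rw [List.count_eq_zero.2 ha]
        omega)
    (by
      intro c hc hq
      rcases hPl c hc with rfl | ⟨k, hk, rfl⟩ | ⟨i, hi, rfl⟩
      · apply List.mem_append_left
        rw [List.mem_flatMap]
        exact ⟨1, hQ1, by rw [psi_one]; simp⟩
      · exfalso
        have h1 : (5 * k + 4) % 5 = 4 := by omega
        unfold con at hq
        simp [h1] at hq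
      · exact List.mem_append_right _ (mem_tll τ ((hT.2 i).2 (by omega))))
    (List.mem_append_right _ (mem_tll τ ((hT.2 m).2 (le_refl m))))
  rw [← hψd] at hC
  -- the words of `w1`
  have k1 := RR.filter (β := β) (Fu m) hK
  rw [cU] at k1
  have k2 := RR.sub (β := β) (fun c => [rz m c]) (RR.filter (β := β) (Fz m) hK)
  rw [sub_map, sub_map, cZ] at k2
  -- BtS
  have hb := hB (fun c => decide (c % 5 = 2)) []
    ((List.range m).flatMap (fun i => [con i, con i, pin (i + 1)]) ++ [con m, con m])
    (pin (m + 1) :: T) 1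
    (by rw [v_filter, List.length_map, List.length_range])
    (by
      rw [v_filter]
      apply List.Nodup.map
      · intro a b hab
        simp only [pin] at hab
        omega
      · exact List.nodup_range)
    (by
      intro c hc hq
      have : c ∈ ((List.range m).flatMap (fun i => [con i, con i, pin (i + 1)]) ++
        [con m, con m]).filter (fun c => decide (c % 5 = 2)) := List.mem_filter.2 ⟨hc, hq⟩
      rw [v_filter, List.mem_map] at this
      obtain ⟨i, hi, rfl⟩ := this
      have hi' := List.mem_range.1 hi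
      exact List.mem_cons_of_mem _ (mem_tll τ ((hT.2 i).2 (by omega))))
  rw [dq_v] at hb
  -- together
  have h12 : RR β (1 :: (lw4 (fun i => pin (i + 1)) con (m + 1) ++ (1 :: T)))
      (1 :: (lw4 (fun i => pin (i + 1)) con m ++ ([con m, con m, con m, con m] ++
        (1 :: pin (m + 1) :: T)))) :=
    β.trans (k1.symm) (β.trans hU (β.trans hC (β.trans hZ.symm k2)))
  have hb' : RR β (1 :: (lw4 (fun i => pin (i + 1)) con m ++ ([con m, con m, con m, con m] ++
        (1 :: pin (m + 1) :: T)))) (1 :: 1 :: (lw4 (fun i => pin (i + 1)) con m ++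
          ([con m, con m, con m, con m] ++ (1 :: pin (m + 1) :: T)))) := by
    simpa [List.append_assoc] using hb
  have h11 : RR β (1 :: (lw4 (fun i => pin (i + 1)) con (m + 1) ++ (1 :: T)))
      (1 :: 1 :: (lw4 (fun i => pin (i + 1)) con (m + 1) ++ (1 :: T))) :=
    β.trans h12 (β.trans hb' ((RR.refl [1]).append h12.symm))
  refine ler β hG m τ hT 1 (fun i => sep (i + 1)) (fun i => pin (i + 1)) con ?_ h11
  rw [List.nodup_cons, List.nodup_append, List.nodup_append]
  refine ⟨?_, ?_, ⟨?_, ?_, ?_⟩, ?_⟩
  · intro h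
    rw [List.mem_append, List.mem_append, List.mem_map, List.mem_map, List.mem_map] at h
    rcases h with ⟨i, -, hi⟩ | ⟨i, -, hi⟩ | ⟨i, -, hi⟩
    · unfold sep at hi; omega
    · unfold pin at hi; omega
    · unfold con at hi; omega
  · apply List.Nodup.map _ List.nodup_range
    intro a b hab
    simp only [sep] at hab
    omega
  · apply List.Nodup.map _ List.nodup_range
    intro a b hab
    simp only [pin] at hab
    omega
  · apply List.Nodup.map _ List.nodup_range
    intro a b hab
    simp only [con] at hab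
    omega
  · intro a ha b hb hab
    rw [List.mem_map] at ha hb
    obtain ⟨i, -, rfl⟩ := ha
    obtain ⟨j, -, rfl⟩ := hb
    unfold pin con at hab
    omega
  · intro a ha b hb hab
    rw [List.mem_map] at ha
    rw [List.mem_append, List.mem_map, List.mem_map] at hb
    obtain ⟨i, -, rfl⟩ := ha
    rcases hb with ⟨j, -, rfl⟩ | ⟨j, -, rfl⟩
    · unfold sep pin at hab; omega
    · unfold sep con at hab; omega

end Pool.Agent.MWLE.H41
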